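import Pool.Agent.Helper18.NF.StA
import Pool.Agent.Helper18.NF.Basic

/-!
# Project NF (MP_265190_nt), module NF-13: bounds near `s = 1` with `q ^ ε`
-/

set_option autoImplicit false

open Finset Filter Topology MeasureTheory

namespace Pool.Agent.Helper85.NF

open Pool.Agent.Helper18.NF Pool.Agent.Helper18.BV

theorem tent_nonneg (y : ℝ) : 0 ≤ tent y := le_max_left _ _

theorem tent_le_one (y : ℝ) : tent y ≤ 1 := by
  unfold tent
  apply max_le zero_le_one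
  have := abs_nonneg (Real.logb 2 (max y 1) - 1)
  linarith

theorem tent_eq_zero {y : ℝ} (h : y ≤ 1 ∨ 4 ≤ y) : tent y = 0 := by
  unfold tent
  apply max_eq_left
  rcases h with h | h
  · rw [max_eq_right h]
    simp
  · rw [max_eq_left (by linarith : (1 : ℝ) ≤ y)]
    have h1 : 2 ≤ Real.logb 2 y := by
      rw [Real.le_logb_iff_rpow_le (by norm_num) (by linarith)]
      have : (2 : ℝ) ^ (2 : ℝ) = 4 := by
        rw [show (2 : ℝ) = ((2 : ℕ) : ℝ) by norm_num, Real.rpow_natCast]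
        norm_num
      rw [this]; exact h
    have h2 : 1 ≤ |Real.logb 2 y - 1| := le_trans (by linarith) (le_abs_self _)
    linarith

theorem log_sub_le {a b : ℝ} (hb : 1 ≤ b) (hab : b ≤ a) : Real.log a - Real.log b ≤ a - b := by
  have hb0 : 0 < b := by linarith
  have ha0 : 0 < a := by linarith
  rw [← Real.log_div ha0.ne' hb0.ne']
  have h1 := Real.log_le_sub_one_of_pos (div_pos ha0 hb0)
  have h2 : a / b - 1 = (a - b) / b := by field_simp
  have h3 : (a - b) / b ≤ a - b := div_le_self (by linarith) hb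
  linarith

theorem log_max_lip (y z : ℝ) : |Real.log (max y 1) - Real.log (max z 1)| ≤ |y - z| := by
  refine le_trans ?_ (abs_max_sub_max_le_abs y z 1)
  rcases le_total (max z 1) (max y 1) with h | h
  · have h1 := log_sub_le (le_max_right z 1) h
    have h2 : 0 ≤ Real.log (max y 1) - Real.log (max z 1) :=
      sub_nonneg.2 (Real.log_le_log (by have := le_max_right z (1 : ℝ); linarith) h)
    rw [abs_of_nonneg h2, abs_of_nonneg (sub_nonneg.2 h)]
    exact h1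
  · have h1 := log_sub_le (le_max_right y 1) h
    have h2 : 0 ≤ Real.log (max z 1) - Real.log (max y 1) :=
      sub_nonneg.2 (Real.log_le_log (by have := le_max_right y (1 : ℝ); linarith) h)
    rw [abs_sub_comm, abs_sub_comm (max y 1), abs_of_nonneg h2, abs_of_nonneg (sub_nonneg.2 h)]
    exact h1

theorem tent_lip (y z : ℝ) : |tent y - tent z| ≤ 2 * |y - z| := by
  unfold tent
  rw [max_comm 0, max_comm 0]
  refine le_trans (abs_max_sub_max_le_abs _ _ 0) ?_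
  have h1 : ∀ u v : ℝ, |1 - |u - 1| - (1 - |v - 1|)| ≤ |u - v| := by
    intro u v
    have h2 : 1 - |u - 1| - (1 - |v - 1|) = |v - 1| - |u - 1| := by ring
    rw [h2]
    refine le_trans (abs_abs_sub_abs_le _ _) ?_
    rw [abs_sub_comm]
    apply le_of_eq
    congr 1
    ring
  refine le_trans (h1 _ _) ?_
  have h3 : Real.logb 2 (max y 1) - Real.logb 2 (max z 1)
      = (Real.log (max y 1) - Real.log (max z 1)) / Real.log 2 := by
    unfold Real.logb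
    ring
  have h4 : (1 : ℝ) / 2 ≤ Real.log 2 := by
    have := Real.log_two_gt_d9
    linarith
  have h5 : 0 < Real.log 2 := by linarith
  rw [h3, abs_div, abs_of_pos h5, div_le_iff₀ h5]
  have h6 := log_max_lip y z
  have h7 := abs_nonneg (y - z)
  nlinarith

/-- The test function `y ^ (-s) tent y`. -/
noncomputable def G (s : ℂ) (y : ℝ) : ℂ :=
  Complex.exp (-s * (Real.log (max y 1) : ℂ)) * (tent y : ℂ)

theorem norm_exp_le {s : ℂ} (hs : 0 ≤ s.re) {u : ℝ} (hu : 0 ≤ u) :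
    ‖Complex.exp (-s * (u : ℂ))‖ ≤ 1 := by
  rw [Complex.norm_exp]
  have : (-s * (u : ℂ)).re = -(s.re * u) := by simp
  rw [this]
  apply Real.exp_le_one_iff.2
  have := mul_nonneg hs hu
  linarith

theorem exp_lip {s : ℂ} (hs : 0 ≤ s.re) {u v : ℝ} (hu : 0 ≤ u) (hv : 0 ≤ v) :
    ‖Complex.exp (-s * (u : ℂ)) - Complex.exp (-s * (v : ℂ))‖ ≤ ‖s‖ * |u - v| := by
  have h1 : ∀ x ∈ Set.Ici (0 : ℝ), HasDerivWithinAt (fun x : ℝ => Complex.exp (-s * (x : ℂ)))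
      (Complex.exp (-s * (x : ℂ)) * (-s * 1)) (Set.Ici 0) x := by
    intro x _
    apply HasDerivAt.hasDerivWithinAt
    have h2 : HasDerivAt (fun x : ℝ => -s * (x : ℂ)) (-s * 1) x :=
      (Complex.ofRealCLM.hasDerivAt (x := x)).const_mul (-s)
    exact h2.cexp
  have h3 : ∀ x ∈ Set.Ici (0 : ℝ), ‖Complex.exp (-s * (x : ℂ)) * (-s * 1)‖ ≤ ‖s‖ := by
    intro x hx
    rw [norm_mul, mul_one, norm_neg]
    calc ‖Complex.exp (-s * (x : ℂ))‖ * ‖s‖ ≤ 1 * ‖s‖ := by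
          gcongr
          exact norm_exp_le hs hx
      _ = ‖s‖ := one_mul _
  have h4 := (convex_Ici (0 : ℝ)).norm_image_sub_le_of_norm_hasDerivWithin_le h1 h3
    (show v ∈ Set.Ici (0 : ℝ) from hv) (show u ∈ Set.Ici (0 : ℝ) from hu)
  simpa [Real.norm_eq_abs] using h4

theorem log_max_nonneg (y : ℝ) : 0 ≤ Real.log (max y 1) := Real.log_nonneg (le_max_right _ _)

theorem norm_G_le {s : ℂ} (hs : 0 ≤ s.re) (y : ℝ) : ‖G s y‖ ≤ tent y := by
  unfold G
  rw [norm_mul, Complex.norm_real, Real.norm_eq_abs, abs_of_nonneg (tent_nonneg y)]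
  calc _ ≤ 1 * tent y := by
        gcongr
        · exact tent_nonneg y
        · exact norm_exp_le hs (log_max_nonneg y)
    _ = tent y := one_mul _

theorem isTest_G {s : ℂ} (hs : 0 ≤ s.re) : IsTest (‖s‖ + 2) (G s) := by
  constructor
  · intro y z
    have h1 : G s y - G s z
        = (Complex.exp (-s * (Real.log (max y 1) : ℂ)) - Complex.exp (-s * (Real.log (max z 1) : ℂ)))
            * (tent y : ℂ)
          + Complex.exp (-s * (Real.log (max z 1) : ℂ)) * ((tent y - tent z : ℝ) : ℂ) := by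
      unfold G
      push_cast
      ring
    rw [h1]
    refine le_trans (norm_add_le _ _) ?_
    rw [norm_mul, norm_mul, Complex.norm_real, Complex.norm_real, Real.norm_eq_abs,
      Real.norm_eq_abs, abs_of_nonneg (tent_nonneg y)]
    have h2 := exp_lip hs (log_max_nonneg y) (log_max_nonneg z)
    have h3 := log_max_lip y z
    have h4 := tent_lip y z
    have h5 := norm_exp_le hs (log_max_nonneg z)
    have h6 := tent_le_one y
    calc _ ≤ (‖s‖ * |y - z|) * 1 + 1 * (2 * |y - z|) := by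
          gcongr
          · exact tent_nonneg y
          · exact h2.trans (by gcongr)
      _ = (‖s‖ + 2) * |y - z| := by ring
  · intro y hy
    unfold G
    rw [tent_eq_zero hy]
    simp

theorem floor_eq (j : ℕ) : ⌊4 * (2 : ℝ) ^ j⌋₊ = 4 * 2 ^ j := by
  have : (4 * (2 : ℝ) ^ j) = ((4 * 2 ^ j : ℕ) : ℝ) := by push_cast; ring
  rw [this, Nat.floor_natCast]

theorem term_eq (m j : ℕ) (hm : 1 ≤ m) (s : ℂ) :
    (m : ℂ) ^ (-s) * (tent (m / 2 ^ j) : ℂ)
      = Complex.exp (-s * ((j * Real.log 2 : ℝ) : ℂ)) * G s (m / (2 : ℝ) ^ j) := by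
  unfold G
  rcases le_or_gt ((m : ℝ) / 2 ^ j) 1 with h | h
  · rw [tent_eq_zero (Or.inl h)]
    simp
  · rw [max_eq_left h.le, ← mul_assoc, ← Complex.exp_add]
    congr 1
    have hm0 : (m : ℝ) ≠ 0 := by positivity
    have hm1 : (m : ℂ) ≠ 0 := by exact_mod_cast hm0
    rw [Complex.cpow_def_of_ne_zero hm1]
    congr 1
    rw [Real.log_div hm0 (by positivity), Real.log_pow]
    have : Complex.log (m : ℂ) = ((Real.log m : ℝ) : ℂ) := by
      rw [← Complex.natCast_log]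
    rw [this]
    push_cast
    ring

theorem norm_exp_eq (s : ℂ) (j : ℕ) :
    ‖Complex.exp (-s * ((j * Real.log 2 : ℝ) : ℂ))‖ = (2 : ℝ) ^ (-(j * s.re)) := by
  have h : ∀ u : ℝ, (-s * (u : ℂ)).re = -(s.re * u) := by intro u; simp
  rw [Complex.norm_exp, h, Real.rpow_def_of_pos (by norm_num)]
  congr 1
  ring

section

variable {n : ℕ} {r L : ArithmeticFunction ℝ} {κ : ℝ}

theorem sum_tent (h : IsSys n r L κ) : ∃ C : ℝ, 0 < C ∧ ∀ j : ℕ,
    ∑ m ∈ Icc 1 (4 * 2 ^ j), r m * tent (m / 2 ^ j) ≤ C * 2 ^ j := by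
  obtain ⟨C, hC, hC'⟩ := h.triv
  have ht : IsTest 2 (fun y => (tent y : ℂ)) := by
    constructor
    · intro y z
      rw [← Complex.ofReal_sub, Complex.norm_real, Real.norm_eq_abs]
      exact tent_lip y z
    · intro y hy
      rw [tent_eq_zero hy]
      simp
  refine ⟨κ * ‖∫ y, (tent y : ℂ)‖ + C * 2 + 1, by have := h.kpos; positivity, ?_⟩
  intro j
  have hT : (1 : ℝ) ≤ 2 ^ j := one_le_pow₀ (by norm_num)
  have h1 := hC' 2 (2 ^ j) _ ht hT
  rw [floor_eq] at h1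
  have h2 : ∑ m ∈ Icc 1 (4 * 2 ^ j), (r m : ℂ) * (tent ((m : ℝ) / 2 ^ j) : ℂ)
      = ((∑ m ∈ Icc 1 (4 * 2 ^ j), r m * tent (m / 2 ^ j) : ℝ) : ℂ) := by
    push_cast
    rfl
  rw [h2] at h1
  have h3 : ‖((∑ m ∈ Icc 1 (4 * 2 ^ j), r m * tent (m / 2 ^ j) : ℝ) : ℂ)‖
      ≤ C * 2 * ((2 : ℝ) ^ j) ^ (1 - 1 / (n : ℝ)) + κ * 2 ^ j * ‖∫ y, (tent y : ℂ)‖ := by
    have h4 : ‖(κ : ℂ) * ((2 ^ j : ℝ) : ℂ) * ∫ y, (tent y : ℂ)‖
        = κ * 2 ^ j * ‖∫ y, (tent y : ℂ)‖ := by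
      rw [norm_mul, norm_mul, Complex.norm_real, Complex.norm_real, Real.norm_eq_abs,
        Real.norm_eq_abs, abs_of_pos h.kpos, abs_of_pos (by positivity)]
    rw [← h4]
    have h5 := norm_le_norm_add_norm_sub'
      ((∑ m ∈ Icc 1 (4 * 2 ^ j), r m * tent (m / 2 ^ j) : ℝ) : ℂ)
      ((κ : ℂ) * ((2 ^ j : ℝ) : ℂ) * ∫ y, (tent y : ℂ))
    linarith
  have h6 : ((2 : ℝ) ^ j) ^ (1 - 1 / (n : ℝ)) ≤ 2 ^ j := by
    calc ((2 : ℝ) ^ j) ^ (1 - 1 / (n : ℝ)) ≤ ((2 : ℝ) ^ j) ^ (1 : ℝ) := by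
          apply Real.rpow_le_rpow_of_exponent_le hT
          have : 0 ≤ 1 / (n : ℝ) := by positivity
          linarith
      _ = 2 ^ j := Real.rpow_one _
  rw [Complex.norm_real, Real.norm_eq_abs] at h3
  have h7 := le_abs_self (∑ m ∈ Icc 1 (4 * 2 ^ j), r m * tent (m / 2 ^ j))
  have h8 : C * 2 * ((2 : ℝ) ^ j) ^ (1 - 1 / (n : ℝ)) ≤ C * 2 * 2 ^ j := by gcongr
  nlinarith

theorem term_rw {q : ℕ} (χ : DirichletCharacter ℂ q) (s : ℂ) (j : ℕ) :
    ∑ m ∈ Icc 1 (4 * 2 ^ j), tw r χ m * (m : ℂ) ^ (-s) * (tent (m / 2 ^ j) : ℂ)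
      = Complex.exp (-s * ((j * Real.log 2 : ℝ) : ℂ))
        * ∑ m ∈ Icc 1 (4 * 2 ^ j), (r m : ℂ) * χ (m : ZMod q) * G s (m / (2 : ℝ) ^ j) := by
  rw [Finset.mul_sum]
  refine Finset.sum_congr rfl (fun m hm => ?_)
  rw [mul_assoc, term_eq m j (mem_Icc.1 hm).1 s]
  unfold tw
  ring

theorem term_le_triv (h : IsSys n r L κ) {C : ℝ}
    (hC : ∀ j : ℕ, ∑ m ∈ Icc 1 (4 * 2 ^ j), r m * tent (m / 2 ^ j) ≤ C * 2 ^ j) {q : ℕ}
    (χ : DirichletCharacter ℂ q) {s : ℂ} (hs : 0 ≤ s.re) (j : ℕ) :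
    ‖∑ m ∈ Icc 1 (4 * 2 ^ j), tw r χ m * (m : ℂ) ^ (-s) * (tent (m / 2 ^ j) : ℂ)‖
      ≤ C * (2 : ℝ) ^ ((j : ℝ) * (1 - s.re)) := by
  rw [term_rw, norm_mul, norm_exp_eq]
  have h1 : ‖∑ m ∈ Icc 1 (4 * 2 ^ j), (r m : ℂ) * χ (m : ZMod q) * G s (m / (2 : ℝ) ^ j)‖
      ≤ C * 2 ^ j := by
    refine le_trans (norm_sum_le _ _) (le_trans (Finset.sum_le_sum (fun m _ => ?_)) (hC j))
    rw [norm_mul, norm_mul, Complex.norm_real, Real.norm_eq_abs, abs_of_nonneg (h.r_nonneg m)]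
    calc r m * ‖χ (m : ZMod q)‖ * ‖G s (m / (2 : ℝ) ^ j)‖
        ≤ r m * 1 * tent (m / 2 ^ j) := by
          gcongr
          · exact mul_nonneg (h.r_nonneg m) zero_le_one
          · exact h.r_nonneg m
          · exact DirichletCharacter.norm_le_one χ _
          · exact norm_G_le hs _
      _ = r m * tent (m / 2 ^ j) := by ring
  calc (2 : ℝ) ^ (-(j * s.re)) * _ ≤ (2 : ℝ) ^ (-(j * s.re)) * (C * 2 ^ j) := by gcongr
    _ = C * (2 : ℝ) ^ ((j : ℝ) * (1 - s.re)) := by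
        have : (j : ℝ) * (1 - s.re) = -(j * s.re) + j := by ring
        rw [this, Real.rpow_add (by norm_num), Real.rpow_natCast]
        ring

theorem term_le_char {C : ℝ} (hC0 : 0 < C)
    (hC : ∀ (q : ℕ) [NeZero q] (χ : DirichletCharacter ℂ q), χ ≠ 1 →
    ∀ (B T : ℝ) (G : ℝ → ℂ), IsTest B G → 1 ≤ T →
      ‖∑ m ∈ Icc 1 ⌊4 * T⌋₊, (r m : ℂ) * χ (m : ZMod q) * G (m / T)‖ ≤
        C * B * (q : ℝ) ^ n * T ^ (1 - 1 / (n : ℝ))) (q : ℕ) [NeZero q]
    (χ : DirichletCharacter ℂ q) (hχ : χ ≠ 1) {s : ℂ} (hs : 0 ≤ s.re) (hs' : ‖s‖ ≤ 2) (j : ℕ) :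
    ‖∑ m ∈ Icc 1 (4 * 2 ^ j), tw r χ m * (m : ℂ) ^ (-s) * (tent (m / 2 ^ j) : ℂ)‖
      ≤ 4 * C * (q : ℝ) ^ n * (2 : ℝ) ^ ((j : ℝ) * (1 - 1 / (n : ℝ) - s.re)) := by
  rw [term_rw, norm_mul, norm_exp_eq]
  have hT : (1 : ℝ) ≤ 2 ^ j := one_le_pow₀ (by norm_num)
  have h1 := hC q χ hχ _ _ _ (isTest_G hs) hT
  rw [floor_eq] at h1
  have h2 : ((2 : ℝ) ^ j) ^ (1 - 1 / (n : ℝ)) = (2 : ℝ) ^ ((j : ℝ) * (1 - 1 / (n : ℝ))) := by
    rw [← Real.rpow_natCast 2 j, ← Real.rpow_mul (by norm_num)]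
  rw [h2] at h1
  calc (2 : ℝ) ^ (-(j * s.re)) * _
      ≤ (2 : ℝ) ^ (-(j * s.re)) * (C * (‖s‖ + 2) * (q : ℝ) ^ n
        * (2 : ℝ) ^ ((j : ℝ) * (1 - 1 / (n : ℝ)))) := by gcongr
    _ ≤ (2 : ℝ) ^ (-(j * s.re)) * (C * (2 + 2) * (q : ℝ) ^ n
        * (2 : ℝ) ^ ((j : ℝ) * (1 - 1 / (n : ℝ)))) := by gcongr
    _ = 4 * C * (q : ℝ) ^ n * (2 : ℝ) ^ ((j : ℝ) * (1 - 1 / (n : ℝ) - s.re)) := by
        have : (j : ℝ) * (1 - 1 / (n : ℝ) - s.re) = -(j * s.re) + (j : ℝ) * (1 - 1 / (n : ℝ)) := by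
          ring
        rw [this, Real.rpow_add (by norm_num)]
        ring

end

theorem interp {x a b θ : ℝ} (hx : 0 ≤ x) (hθ : 0 ≤ θ) (hθ1 : θ ≤ 1) (ha : x ≤ a) (hb : x ≤ b) :
    x ≤ a ^ (1 - θ) * b ^ θ := by
  have h2 : x = x ^ (1 - θ) * x ^ θ := by
    rcases hx.eq_or_lt with h | h
    · rw [← h]
      rcases eq_or_ne θ 0 with h3 | h3
      · subst h3; simp
      · rw [Real.zero_rpow h3]; simp
    · rw [← Real.rpow_add h]; simp
  calc x = x ^ (1 - θ) * x ^ θ := h2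
    _ ≤ a ^ (1 - θ) * b ^ θ := by
        have h3 : 0 ≤ 1 - θ := by linarith
        have h4 : 0 ≤ a ^ (1 - θ) := Real.rpow_nonneg (hx.trans ha) _
        gcongr

theorem lUpperF (h : Cont) : LUpperF := by
  intro n r L κ hsys ε hε
  obtain ⟨_, _, hcont⟩ := h n r L κ hsys
  obtain ⟨C1, hC1, hchar⟩ := hsys.char
  obtain ⟨C2, hC2, htriv⟩ := sum_tent hsys
  have hn : (1 : ℝ) ≤ n := by exact_mod_cast hsys.pos
  have hn0 : (0 : ℝ) < n := by linarith
  set θ : ℝ := min 1 (ε / n) with hθ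
  have hθ0 : 0 < θ := by positivity
  have hθ1 : θ ≤ 1 := min_le_left _ _
  have hθε : n * θ ≤ ε := by
    have : θ ≤ ε / n := min_le_right _ _
    calc n * θ ≤ n * (ε / n) := by gcongr
      _ = ε := by field_simp
  set δ : ℝ := θ / (4 * n) with hδ
  have hδ0 : 0 < δ := by positivity
  have hδn : δ ≤ 1 / (4 * n) := by rw [hδ]; gcongr
  have hδ4 : δ ≤ 1 / 4 := by
    refine hδn.trans ?_
    rw [div_le_div_iff₀ (by positivity) (by norm_num)]
    linarith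
  have hθδ : θ / n = 4 * δ := by rw [hδ]; field_simp
  -- geometric ratio
  set w : ℝ := (2 : ℝ) ^ (-(3 * δ)) with hw
  have hw0 : 0 ≤ w := by positivity
  have hw1 : w < 1 := Real.rpow_lt_one_of_one_lt_of_neg (by norm_num) (by linarith)
  set C3 : ℝ := C2 ^ (1 - θ) * (4 * C1) ^ θ with hC3
  have hC3p : 0 < C3 := by positivity
  set C4 : ℝ := 1 + C3 * (1 - w)⁻¹ with hC4
  have hw2 : 0 < (1 - w)⁻¹ := by
    have : 0 < 1 - w := by linarith
    positivity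
  have hC4p : 0 < C4 := by positivity
  have main : ∀ (q : ℕ) [NeZero q] (χ : DirichletCharacter ℂ q), χ ≠ 1 → ∀ s : ℂ, ‖s - 1‖ ≤ δ →
      ‖LF (tw r χ) s‖ ≤ C4 * (q : ℝ) ^ ε := by
    intro q _ χ hχ s hs
    have hq : (1 : ℝ) ≤ q := by exact_mod_cast Nat.one_le_iff_ne_zero.2 (NeZero.ne q)
    have hre : 1 - δ ≤ s.re := by
      have h1 := Complex.abs_re_le_norm (s - 1)
      have h2 := abs_le.1 (h1.trans hs)
      simp only [Complex.sub_re, Complex.one_re] at h2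
      linarith [h2.1]
    have hs0 : 0 ≤ s.re := by linarith
    have hs2 : ‖s‖ ≤ 2 := by
      have h1 : s = (s - 1) + 1 := by ring
      have h2 : ‖s‖ ≤ ‖s - 1‖ + ‖(1 : ℂ)‖ := by
        conv_lhs => rw [h1]
        exact norm_add_le _ _
      rw [norm_one] at h2
      linarith
    have hterm : ∀ j : ℕ,
        ‖∑ m ∈ Icc 1 (4 * 2 ^ j), tw r χ m * (m : ℂ) ^ (-s) * (tent (m / 2 ^ j) : ℂ)‖
          ≤ C3 * (q : ℝ) ^ ε * w ^ j := by
      intro j
      have ha := term_le_triv hsys htriv χ hs0 j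
      have hb := term_le_char hC1 hchar q χ hχ hs0 hs2 j
      have ha' : ‖∑ m ∈ Icc 1 (4 * 2 ^ j), tw r χ m * (m : ℂ) ^ (-s) * (tent (m / 2 ^ j) : ℂ)‖
          ≤ C2 * (2 : ℝ) ^ ((j : ℝ) * δ) := by
        refine ha.trans (mul_le_mul_of_nonneg_left
          (Real.rpow_le_rpow_of_exponent_le (by norm_num) ?_) hC2.le)
        have : (0 : ℝ) ≤ j := Nat.cast_nonneg j
        nlinarith
      have hb' : ‖∑ m ∈ Icc 1 (4 * 2 ^ j), tw r χ m * (m : ℂ) ^ (-s) * (tent (m / 2 ^ j) : ℂ)‖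
          ≤ 4 * C1 * (q : ℝ) ^ n * (2 : ℝ) ^ ((j : ℝ) * (δ - 1 / (n : ℝ))) := by
        refine hb.trans (mul_le_mul_of_nonneg_left
          (Real.rpow_le_rpow_of_exponent_le (by norm_num) ?_) (by positivity))
        have : (0 : ℝ) ≤ j := Nat.cast_nonneg j
        exact mul_le_mul_of_nonneg_left (by linarith) this
      refine (interp (norm_nonneg _) hθ0.le hθ1 ha' hb').trans ?_
      have hj1 : ((2 : ℝ) ^ ((j : ℝ) * δ)) ^ (1 - θ) = (2 : ℝ) ^ ((j : ℝ) * δ * (1 - θ)) := by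
        rw [← Real.rpow_mul (by norm_num)]
      have hj2 : ((2 : ℝ) ^ ((j : ℝ) * (δ - 1 / (n : ℝ)))) ^ θ
          = (2 : ℝ) ^ ((j : ℝ) * (δ - 1 / (n : ℝ)) * θ) := by
        rw [← Real.rpow_mul (by norm_num)]
      have hj3 : w ^ j = (2 : ℝ) ^ ((j : ℝ) * δ * (1 - θ))
          * (2 : ℝ) ^ ((j : ℝ) * (δ - 1 / (n : ℝ)) * θ) := by
        rw [hw, ← Real.rpow_natCast, ← Real.rpow_mul (by norm_num),
          ← Real.rpow_add (by norm_num)]
        congr 1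
        have : 1 / (n : ℝ) * θ = 4 * δ := by rw [← hθδ]; ring
        calc -(3 * δ) * (j : ℝ) = (j : ℝ) * (δ - 4 * δ) := by ring
          _ = (j : ℝ) * (δ - 1 / (n : ℝ) * θ) := by rw [this]
          _ = (j : ℝ) * δ * (1 - θ) + (j : ℝ) * (δ - 1 / (n : ℝ)) * θ := by ring
      have hq2 : ((q : ℝ) ^ n) ^ θ ≤ (q : ℝ) ^ ε := by
        rw [← Real.rpow_natCast, ← Real.rpow_mul (by linarith)]
        exact Real.rpow_le_rpow_of_exponent_le hq hθε
      rw [Real.mul_rpow hC2.le (by positivity), Real.mul_rpow (by positivity) (by positivity),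
        Real.mul_rpow (by positivity) (by positivity), hj1, hj2]
      calc C2 ^ (1 - θ) * (2 : ℝ) ^ ((j : ℝ) * δ * (1 - θ))
            * ((4 * C1) ^ θ * ((q : ℝ) ^ n) ^ θ * (2 : ℝ) ^ ((j : ℝ) * (δ - 1 / (n : ℝ)) * θ))
          = C3 * ((q : ℝ) ^ n) ^ θ * w ^ j := by rw [hj3, hC3]; ring
        _ ≤ C3 * (q : ℝ) ^ ε * w ^ j := by gcongr
    have hsum : ‖∑' j : ℕ, ∑ m ∈ Icc 1 (4 * 2 ^ j),
        tw r χ m * (m : ℂ) ^ (-s) * (tent (m / 2 ^ j) : ℂ)‖ ≤ C3 * (q : ℝ) ^ ε * (1 - w)⁻¹ :=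
      tsum_of_norm_bounded ((hasSum_geometric_of_lt_one hw0 hw1).mul_left _) hterm
    have h1 : ‖tw r χ 1‖ ≤ 1 := by
      unfold tw
      rw [hsys.one]
      simp
    have hq3 : (1 : ℝ) ≤ (q : ℝ) ^ ε := Real.one_le_rpow hq hε.le
    unfold LF
    refine (norm_add_le _ _).trans ?_
    calc _ ≤ 1 + C3 * (q : ℝ) ^ ε * (1 - w)⁻¹ := add_le_add h1 hsum
      _ ≤ (q : ℝ) ^ ε + C3 * (q : ℝ) ^ ε * (1 - w)⁻¹ := by gcongr
      _ = C4 * (q : ℝ) ^ ε := by rw [hC4]; ring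
  refine ⟨δ / 2, C4 + C4 / (δ / 2), by positivity, ?_, by positivity, ?_⟩
  · linarith
  · intro q _ χ hχ s hs
    have hq3 : (0 : ℝ) ≤ (q : ℝ) ^ ε := by positivity
    have hC5 : 0 ≤ C4 / (δ / 2) := by positivity
    constructor
    · refine (main q χ hχ s (by linarith)).trans ?_
      gcongr
      linarith
    · have hd := (hcont q χ hχ).1
      have h1 : DiffContOnCl ℂ (LF (tw r χ)) (Metric.ball s (δ / 2)) := by
        apply DifferentiableOn.diffContOnCl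
        refine hd.mono ?_
        intro z hz
        have hz' : ‖z - s‖ ≤ δ / 2 := by
          have := Metric.closure_ball_subset_closedBall hz
          rwa [Metric.mem_closedBall, dist_eq_norm] at this
        have h2 : ‖z - 1‖ ≤ δ := by
          have h3 : z - 1 = (z - s) + (s - 1) := by ring
          rw [h3]
          exact (norm_add_le _ _).trans (by linarith)
        have h4 := Complex.abs_re_le_norm (z - 1)
        have h5 := abs_le.1 (h4.trans h2)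
        simp only [Complex.sub_re, Complex.one_re] at h5
        have h6 : (1 : ℝ) / (4 * n) < 1 / n := by
          rw [div_lt_div_iff₀ (by positivity) hn0]
          linarith
        show 1 - 1 / (n : ℝ) < z.re
        linarith [h5.1]
      have h7 := Complex.norm_deriv_le_of_forall_mem_sphere_norm_le (by positivity : 0 < δ / 2) h1
        (C := C4 * (q : ℝ) ^ ε) (by
          intro z hz
          apply main q χ hχ z
          have hz' : ‖z - s‖ = δ / 2 := by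
            rwa [mem_sphere_iff_norm] at hz
          have h3 : z - 1 = (z - s) + (s - 1) := by ring
          rw [h3]
          exact (norm_add_le _ _).trans (by linarith))
      refine h7.trans ?_
      calc C4 * (q : ℝ) ^ ε / (δ / 2) = C4 / (δ / 2) * (q : ℝ) ^ ε := by ring
        _ ≤ (C4 + C4 / (δ / 2)) * (q : ℝ) ^ ε := by
            gcongr
            linarith

end Pool.Agent.Helper85.NF
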